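import Pool.Agent.Q283.FT.Stm2
import Pool.Agent.Q123.LK.SH2

/-!
# Project FT of helper283: job SNG (helper31)
-/

set_option autoImplicit false

namespace Pool.Agent.Q31.FT

open NumberField IsDedekindDomain Filter Topology Finset
open Pool.Agent.Q283.LQ (Sm Box Nest nS)
open Pool.Agent.Q7.LK
open Pool.Agent.Q283.FT
open Pool.Agent.Q123.LK

theorem df_ne {F : Type} [Field F] {e : Fin 3 → F} (h : Function.Injective e) (l : Fin 3) : df e l ≠ 0 := by
  unfold df
  split_ifs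
  · exact sub_ne_zero.mpr fun h' => absurd (h h') (by decide)
  · exact sub_ne_zero.mpr fun h' => absurd (h h') (by decide)
  · exact sub_ne_zero.mpr fun h' => absurd (h h') (by decide)

/-- the product of two classes -/
theorem cl2 (hB : S_BAS) {F : Type} [Field F] [NumberField F] {f : ℕ} {u : Fin f → F} (hu : ∀ l, u l ≠ 0)
    (r : Fin f → F) (y : ℕ) {a b : F} (ha : a ≠ 0) (hb : b ≠ 0) {c c' : Fin f → ZMod 2}
    (h : IsPow 2 (a * mon u c)) (h' : IsPow 2 (b * mon u c')) :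
    Nn 2 y (a * b * mon r (0 : Fin f → ZMod 2) * mon u (c + c')) := by
  obtain ⟨x, hx⟩ := h
  obtain ⟨x', hx'⟩ := h'
  have hx0 : x ≠ 0 := by
    rintro rfl
    rw [zero_pow two_ne_zero] at hx
    exact mul_ne_zero ha (mon_ne hu c) hx
  have hx0' : x' ≠ 0 := by
    rintro rfl
    rw [zero_pow two_ne_zero] at hx'
    exact mul_ne_zero hb (mon_ne hu c') hx'
  have h1 : mon r (0 : Fin f → ZMod 2) = 1 := by
    unfold mon
    simp
  have h2 : Eqv 2 (mon u c * mon u c') (mon u (c + c')) := by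
    have h3 := eqv_mon (p := 2) hu (fun l => (c l).val + (c' l).val) (c + c') (fun l => by
      rw [Nat.cast_add, ZMod.natCast_zmod_val, ZMod.natCast_zmod_val, Pi.add_apply])
    have h4 : ∏ l, u l ^ ((c l).val + (c' l).val) = mon u c * mon u c' := by
      unfold mon
      rw [← Finset.prod_mul_distrib]
      exact Finset.prod_congr rfl fun l _ => pow_add _ _ _
    rwa [h4] at h3
  obtain ⟨z, hz, hzz⟩ := h2
  rw [h1, mul_one]
  refine nn_eqv hB (b := 1) ⟨x * x' * z⁻¹, mul_ne_zero (mul_ne_zero hx0 hx0') (inv_ne_zero hz), ?_⟩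
    (nn_one hB y)
  have hz2 : z ^ 2 ≠ 0 := pow_ne_zero 2 hz
  have h5 : a * b * mon u (c + c') * z ^ 2 = (x * x') ^ 2 := by
    calc a * b * mon u (c + c') * z ^ 2 = a * b * (mon u (c + c') * z ^ 2) := by ring
      _ = a * b * (mon u c * mon u c') := by rw [← hzz]
      _ = (a * mon u c) * (b * mon u c') := by ring
      _ = (x * x') ^ 2 := by rw [hx, hx', mul_pow]
  rw [one_mul, mul_pow, inv_pow, ← h5, mul_inv_cancel_right₀ hz2]

/-- every class is that of a nonzero element -/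
theorem ex_cls (hB : S_BAS) {F : Type} [Field F] [NumberField F] {f : ℕ} {u r : Fin f → F} (hu : ∀ l, u l ≠ 0)
    (hr : ∀ l, r l ≠ 0) (y : ℕ) (x x' : Fin f → ZMod 2) :
    ∃ a : F, a ≠ 0 ∧ Nn 2 y (a * mon r x * mon u x') := by
  refine ⟨(mon r x * mon u x')⁻¹, inv_ne_zero (mul_ne_zero (mon_ne hr x) (mon_ne hu x')), ?_⟩
  rw [mul_assoc, inv_mul_cancel₀ (mul_ne_zero (mon_ne hr x) (mon_ne hu x'))]
  exact nn_one hB y

/-- JOB SNG -/
theorem sng (hD : S_DJS) (hB : S_BAS) : S_SNG := by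
  intro F _ _ ζ hζ t hT y f u r π hbase hF hfin e c hR hc A hA hloc 𝓛 hM t₀ w z hz
  obtain ⟨a, ha, hacl⟩ := ex_cls hB hbase.ue hbase.re y (fun t => (z.2 t).1) (fun t => (z.1 t).1)
  obtain ⟨b, hb, hbcl⟩ := ex_cls hB hbase.ue hbase.re y (fun t => (z.2 t).2) (fun t => (z.1 t).2)
  have hmem := (hM a b (fun t => (z.2 t).1, fun t => (z.1 t).1) (fun t => (z.2 t).2, fun t => (z.1 t).2)
    ha hb hacl hbcl).mp hz
  have hd := df_ne hR.inj
  have h02 := cl2 hB hbase.ue r y (hd 0) (hd 2) (hc 0) (hc 2)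
  have h12 := cl2 hB hbase.ue r y (hd 1) (hd 2) (hc 1) (hc 2)
  have f1 := hF a b (fun t => (z.2 t).1, fun t => (z.1 t).1) (fun t => (z.2 t).2, fun t => (z.1 t).2)
    ha hb hacl hbcl
  have f2 := hF a (df e 0 * df e 2) (fun t => (z.2 t).1, fun t => (z.1 t).1) (0, c 0 + c 2)
    ha (mul_ne_zero (hd 0) (hd 2)) hacl h02
  have f3 := hF b (df e 1 * df e 2) (fun t => (z.2 t).2, fun t => (z.1 t).2) (0, c 1 + c 2)
    hb (mul_ne_zero (hd 1) (hd 2)) hbcl h12
  have hdot : ∀ s : Fin f → ZMod 2, dot (0 : Fin f → ZMod 2) s = 0 := by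
    intro s
    simp [dot]
  simp only [hdot, add_zero] at f2 f3
  simp only at f1
  rw [(hD f t₀ c w 𝓛).2.2 z]
  have : Finite {v : HeightOneSpectrum (𝓞 F) // Sm y v} := hfin.to_subtype
  have : Fintype {v : HeightOneSpectrum (𝓞 F) // Sm y v} := Fintype.ofFinite _
  rw [← f1, ← f2, ← f3]
  simp only [finsum_eq_sum_of_fintype]
  rw [← Finset.sum_add_distrib, ← Finset.sum_add_distrib]
  exact Finset.sum_eq_zero fun v _ => hloc v.1 a b v.2 (hmem v.1 v.2)

end Pool.Agent.Q31.FT
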